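import Pool.Agent.H426.Two.Claim

/-!
The asymptotic inequality for the bases of the graded pieces, if at most `ν` entries of each vector
are not zero.  This is the proof of `Pool.Agent.H426.Two.Claim` (helper426) with two parameters:
the number `ν` of the non-zero entries and the number `N` of the variables which may be contained
in a relevant prime.
-/

set_option autoImplicit false

namespace Pool.Agent.H430.Nm

open MvPolynomial Finset Module
open Pool.Agent.TH875 (VM VM_finite exists_sec)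
open Pool.Agent.H426.Ru (HG lt_add)
open Pool.Agent.H297.Two (balance)
open Pool.Agent.H426.Two (HasB HasB.zero Jo Ji mem_Jo mem_Ji Fam exists_best exists_large prime_step
  one_le_finrank finrank_irrel)

variable {K : Type} [Field K] {q : ℕ}

/-- the conclusion -/
def Cm (N ν : ℕ) (Q : Ideal (MvPolynomial (Fin q) K)) (ε : ℝ) (M : ℕ) : Prop :=
  ∀ (W : Type) [Fintype W] (a : W → Fin q → ℝ) (x : ℝ), Fam ν Q M a x →
      ∑ j ∈ Jo Q, ∑ w, a w j ≤ (N + ν - (Ji Q).card + ε) * x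

/-- the conclusion if the `i`-th sum is maximal -/
def Cm1 (N ν : ℕ) (Q : Ideal (MvPolynomial (Fin q) K)) (i : Fin q) (ε : ℝ) (M : ℕ) : Prop :=
  ∀ (W : Type) [Fintype W] (a : W → Fin q → ℝ) (x : ℝ), Fam ν Q M a x → ∑ w, a w i = x →
      ∑ j ∈ Jo Q, ∑ w, a w j ≤ (N + ν - (Ji Q).card + ε) * x

/-- reduction to the case that one sum is maximal -/
lemma cm_of_cm1 {N ν : ℕ} {Q : Ideal (MvPolynomial (Fin q) K)} {ε : ℝ} (hε : 0 < ε) {M : ℕ}
    (h1 : ∀ i, X i ∉ Q → Cm1 N ν Q i ε M)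
    (hpos : ∀ j, X j ∉ Q → ∃ τ, HasB Q M τ ∧ 0 < τ j) (hN : (Ji Q).card ≤ N) : Cm N ν Q ε M := by
  classical
  intro W _ a x hF
  choose τ hτ hbest using fun w => exists_best Q M (a w)
  have ha := hF.a0
  have hx := hF.x0
  have hterm : ∀ (τ : Fin q → ℕ) w, 0 ≤ ∑ j, (τ j : ℝ) * a w j := fun τ w =>
    Finset.sum_nonneg fun j _ => mul_nonneg (Nat.cast_nonneg _) (ha w j)
  have hNr : ((Ji Q).card : ℝ) ≤ N := by exact_mod_cast hN
  rcases balance (Jo Q) a ha hF.sp (fun w => ∑ j, (τ w j : ℝ) * a w j) (fun w => hterm _ w)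
    (by
      intro w hw j hj
      obtain ⟨τ', hτ', hp⟩ := hpos j (mem_Jo.1 hj)
      have h2 := hbest w τ' hτ'
      have h3 : (τ' j : ℝ) * a w j ≤ ∑ j, (τ' j : ℝ) * a w j :=
        Finset.single_le_sum (f := fun j => (τ' j : ℝ) * a w j)
          (fun j _ => mul_nonneg (Nat.cast_nonneg _) (ha w j)) (Finset.mem_univ j)
      have h4 : (τ' j : ℝ) * a w j ≤ 0 := by
        have h5 : ∑ j, (τ w j : ℝ) * a w j = 0 := hw
        linarith
      have h5 : (0 : ℝ) < τ' j := by exact_mod_cast hp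
      have h6 := ha w j
      nlinarith) (x * (M * finrank K (VM Q M))) x hx (hF.s1 τ hτ)
    (fun j hj => hF.u1 j (mem_Jo.1 hj)) with h | ⟨μ, hμ0, hμ1, hμ2, ⟨i, hi, hμ3⟩, hμ4⟩
  · refine h.trans ?_
    nlinarith
  · refine hμ4.trans ?_
    refine h1 i (mem_Jo.1 hi) W (fun w j => μ w * a w j) x ⟨hx, ?_, ?_, ?_, ?_⟩ hμ3
    · exact fun w j => mul_nonneg (hμ0 w) (ha w j)
    · intro w
      refine (Finset.card_le_card ?_).trans (hF.sp w)
      intro j hj
      rw [Finset.mem_filter] at hj ⊢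
      exact ⟨hj.1, fun h => hj.2 (by rw [h, mul_zero])⟩
    · exact fun j hj => hμ2 j (mem_Jo.2 hj)
    · intro τ' hτ'
      refine le_trans (Finset.sum_le_sum fun w _ => ?_) hμ1
      have h2 : ∑ j, (τ' w j : ℝ) * (μ w * a w j) = μ w * ∑ j, (τ' w j : ℝ) * a w j := by
        rw [Finset.mul_sum]
        exact Finset.sum_congr rfl fun j _ => by ring
      rw [h2]
      exact mul_le_mul_of_nonneg_left (hbest w _ (hτ' w)) (hμ0 w)

/-- bounded Hilbert function: the case of a point -/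
lemma case_point {N ν : ℕ} {Q : Ideal (MvPolynomial (Fin q) K)} (hQ : HG Q) (hp : Q.IsPrime)
    (hrel : ∃ k, X k ∉ Q) (hN : (Ji Q).card ≤ N) (T0 : ℕ)
    (hT0 : ∀ M, T0 ≤ M → finrank K (VM Q M) = finrank K (VM Q T0)) {ε : ℝ} (hε : 0 < ε) :
    ∃ M0 : ℕ, ∀ M, M0 ≤ M → Cm N ν Q ε M := by
  classical
  have hT : ∀ j : Fin q, ∃ T : ℕ, X j ∉ Q → T0 ≤ T ∧ ∀ M, T ≤ M → ∃ τ, HasB Q M τ ∧
      (M - T) * finrank K (VM Q T0) ≤ τ j := by
    intro j
    by_cases hj : X j ∉ Q
    · obtain ⟨T, hT⟩ := exists_large hQ hp hj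
      refine ⟨max T T0, fun _ => ⟨le_max_right _ _, fun M hM => ?_⟩⟩
      obtain ⟨τ, hτ, h1⟩ := hT M ((le_max_left _ _).trans hM)
      refine ⟨τ, hτ, le_trans ?_ h1⟩
      have h2 : ∑ m ∈ Finset.Ico (max T T0) M, finrank K (VM Q m) ≤
          ∑ m ∈ Finset.Ico T M, finrank K (VM Q m) :=
        Finset.sum_le_sum_of_subset (Finset.Ico_subset_Ico_left (le_max_left _ _))
      refine le_trans (le_of_eq ?_) h2
      rw [Finset.sum_congr rfl fun m hm => hT0 m
        ((le_max_right T T0).trans (Finset.mem_Ico.1 hm).1), Finset.sum_const, smul_eq_mul,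
        Nat.card_Ico]
    · exact ⟨0, fun h => absurd h hj⟩
  choose T hT using hT
  set Ts : ℕ := ∑ j, T j with hTs
  have hTle : ∀ j, T j ≤ Ts := fun j =>
    Finset.single_le_sum (f := T) (fun _ _ => Nat.zero_le _) (Finset.mem_univ j)
  refine ⟨T0 + Ts + 1 + ⌈(ν + ε) * Ts / ε⌉₊, fun M hM => ?_⟩
  intro W _ a x hF
  have ha := hF.a0
  have hx := hF.x0
  have hMT : Ts < M := by omega
  have hM2 : (ν + ε) * Ts ≤ ε * M := by
    have h1 : (ν + ε) * Ts / ε ≤ ⌈(ν + ε) * Ts / ε⌉₊ := Nat.le_ceil _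
    have h2 : (⌈(ν + ε) * Ts / ε⌉₊ : ℝ) ≤ M := by
      have : ⌈(ν + ε) * Ts / ε⌉₊ ≤ M := by omega
      exact_mod_cast this
    rw [div_le_iff₀ hε] at h1
    nlinarith
  obtain ⟨k, hk⟩ := hrel
  have hJ : (Jo Q).Nonempty := ⟨k, mem_Jo.2 hk⟩
  choose jm hjm1 hjm2 using fun w => (Jo Q).exists_max_image (a w) hJ
  choose τ hτ1 hτ2 using fun w => (hT (jm w) (mem_Jo.1 (hjm1 w))).2 M ((hTle _).trans hMT.le)
  have h1 := hF.s1 τ hτ1
  set H : ℝ := ((finrank K (VM Q T0) : ℕ) : ℝ) with hH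
  have hH1 : 1 ≤ H := by
    rw [hH]
    exact_mod_cast one_le_finrank hp hk T0
  have hMH : (finrank K (VM Q M) : ℝ) = H := by
    rw [hH, hT0 M (by omega)]
  rw [hMH] at h1
  have h2 : ∀ w, ((M : ℝ) - Ts) * H * a w (jm w) ≤ ∑ j, (τ w j : ℝ) * a w j := by
    intro w
    have h3 : (τ w (jm w) : ℝ) * a w (jm w) ≤ ∑ j, (τ w j : ℝ) * a w j :=
      Finset.single_le_sum (f := fun j => (τ w j : ℝ) * a w j)
        (fun j _ => mul_nonneg (Nat.cast_nonneg _) (ha w j)) (Finset.mem_univ _)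
    refine le_trans (mul_le_mul_of_nonneg_right ?_ (ha w _)) h3
    have h4 : (((M - T (jm w)) * finrank K (VM Q T0) : ℕ) : ℝ) ≤ τ w (jm w) := by
      exact_mod_cast hτ2 w
    refine le_trans ?_ h4
    have h5 : T (jm w) ≤ M := (hTle _).trans hMT.le
    rw [Nat.cast_mul, Nat.cast_sub h5, ← hH]
    have h6 : ((T (jm w) : ℕ) : ℝ) ≤ Ts := by exact_mod_cast hTle _
    exact mul_le_mul_of_nonneg_right (by linarith) (by linarith)
  have h3 : ((M : ℝ) - Ts) * H * ∑ w, a w (jm w) ≤ x * (M * H) := by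
    rw [Finset.mul_sum]
    exact (Finset.sum_le_sum fun w _ => h2 w).trans h1
  have hMT' : (0 : ℝ) < M - Ts := by
    have : (Ts : ℝ) < M := by exact_mod_cast hMT
    linarith
  have h4 : ((M : ℝ) - Ts) * ∑ w, a w (jm w) ≤ x * M := by
    have h5 : (((M : ℝ) - Ts) * ∑ w, a w (jm w)) * H ≤ (x * M) * H := by
      calc (((M : ℝ) - Ts) * ∑ w, a w (jm w)) * H = ((M : ℝ) - Ts) * H * ∑ w, a w (jm w) := by ring
        _ ≤ x * (M * H) := h3
        _ = (x * M) * H := by ring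
    exact le_of_mul_le_mul_right h5 (by linarith)
  have h5 : ∑ j ∈ Jo Q, ∑ w, a w j ≤ ν * ∑ w, a w (jm w) := by
    rw [Finset.sum_comm, Finset.mul_sum]
    refine Finset.sum_le_sum fun w _ => ?_
    have h6 : ∑ j ∈ Jo Q, a w j = ∑ j ∈ (Jo Q).filter (fun j => a w j ≠ 0), a w j := by
      rw [Finset.sum_filter_ne_zero]
    rw [h6]
    refine (Finset.sum_le_card_nsmul _ _ (a w (jm w)) fun j hj =>
      hjm2 w j (Finset.mem_filter.1 hj).1).trans ?_
    rw [nsmul_eq_mul]
    refine mul_le_mul_of_nonneg_right ?_ (ha w _)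
    have h7 : ((Jo Q).filter (fun j => a w j ≠ 0)).card ≤ ν := by
      refine (Finset.card_le_card ?_).trans (hF.sp w)
      intro j hj
      rw [Finset.mem_filter] at hj ⊢
      exact ⟨Finset.mem_univ _, hj.2⟩
    exact_mod_cast h7
  have hNr : ((Ji Q).card : ℝ) ≤ N := by exact_mod_cast hN
  have hN0 : (0 : ℝ) ≤ ν := Nat.cast_nonneg _
  have h6 : ((M : ℝ) - Ts) * ∑ j ∈ Jo Q, ∑ w, a w j ≤ ((M : ℝ) - Ts) * ((ν + ε) * x) := by
    calc ((M : ℝ) - Ts) * ∑ j ∈ Jo Q, ∑ w, a w j ≤ ((M : ℝ) - Ts) * (ν * ∑ w, a w (jm w)) :=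
          mul_le_mul_of_nonneg_left h5 hMT'.le
      _ = ν * (((M : ℝ) - Ts) * ∑ w, a w (jm w)) := by ring
      _ ≤ ν * (x * M) := mul_le_mul_of_nonneg_left h4 hN0
      _ ≤ ((M : ℝ) - Ts) * ((ν + ε) * x) := by
          have h7 : (ν : ℝ) * M ≤ (M - Ts) * (ν + ε) := by nlinarith
          have h8 := mul_le_mul_of_nonneg_right h7 hx
          nlinarith
  have h7 := le_of_mul_le_mul_left h6 hMT'
  refine h7.trans (mul_le_mul_of_nonneg_right ?_ hx)
  linarith

/-- the case that one sum is maximal, for positive dimension -/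
lemma case_pos {N ν : ℕ} {Q : Ideal (MvPolynomial (Fin q) K)}
    {i : Fin q} {L : ℕ} {P : Fin L → Ideal (MvPolynomial (Fin q) K)} {t : Fin L → ℕ}
    (hP : ∀ l, (P l).IsPrime ∧ HG (P l) ∧ Q < P l)
    (hst : ∀ M, 1 ≤ M → (∀ l, t l ≤ M) →
        finrank K (VM Q M) = finrank K (VM Q (M - 1)) + ∑ l, finrank K (VM (P l) (M - t l)) ∧
        ∀ (τ0 : Fin q → ℕ) (τ : Fin L → Fin q → ℕ), HasB Q (M - 1) τ0 →
          (∀ l, HasB (P l) (M - t l) (τ l)) →
          HasB Q M (fun j => ∑ l, τ l j + τ0 j +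
            if j = i then finrank K (VM Q (M - 1)) else 0))
    (hR : ∃ l k, X k ∉ P l)
    (hih : ∀ l, (∃ k, X k ∉ P l) → ∀ ε : ℝ, 0 < ε → ∃ M0 : ℕ, ∀ M, M0 ≤ M → Cm N ν (P l) ε M)
    {ε : ℝ} (hε : 0 < ε) :
    ∃ M0 : ℕ, ∀ M, M0 ≤ M → Cm1 N ν Q i ε M := by
  classical
  have hN0 : (0 : ℝ) ≤ N := Nat.cast_nonneg _
  have hih' : ∀ l, ∃ M0 : ℕ, (∃ k, X k ∉ P l) → ∀ M, M0 ≤ M → Cm N ν (P l) (ε / 2) M := by
    intro l
    by_cases h : ∃ k, X k ∉ P l
    · obtain ⟨M0, h1⟩ := hih l h (ε / 2) (by linarith)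
      exact ⟨M0, fun _ => h1⟩
    · exact ⟨0, fun h' => absurd h' h⟩
  choose Ml hMl using hih'
  set η : ℝ := ε / (2 * (N + ν + ε)) with hη
  have hη0 : 0 < η := by positivity
  have hηε : η * (N + ν + ε) = ε / 2 := by
    rw [hη]
    field_simp
  set T1 : ℕ := ∑ l, (Ml l + t l + 1 + (t l + ⌈2 * (t l : ℝ) / η⌉₊)) with hT1
  have hT1l : ∀ l, Ml l + t l + 1 + (t l + ⌈2 * (t l : ℝ) / η⌉₊) ≤ T1 := fun l =>
    Finset.single_le_sum (f := fun l => Ml l + t l + 1 + (t l + ⌈2 * (t l : ℝ) / η⌉₊))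
      (fun _ _ => Nat.zero_le _) (Finset.mem_univ l)
  have hT1r : ∀ l (M : ℕ), T1 ≤ M → 2 * (t l : ℝ) ≤ η * ((M - t l : ℕ) : ℝ) := by
    intro l M hM
    have h1 := hT1l l
    have h2 : ⌈2 * (t l : ℝ) / η⌉₊ ≤ M - t l := by omega
    have h3 : 2 * (t l : ℝ) / η ≤ ((M - t l : ℕ) : ℝ) :=
      (Nat.le_ceil _).trans (by exact_mod_cast h2)
    rw [div_le_iff₀ hη0] at h3
    linarith
  set δ : ℝ := η / 2 with hδ
  have hδ0 : 0 < δ := by positivity
  set C0 : ℝ := T1 * finrank K (VM Q T1) with hC0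
  refine ⟨T1 + 1 + ⌈C0 / δ⌉₊, fun M hM => ?_⟩
  intro W _ a x hF hui
  have ha := hF.a0
  have hx := hF.x0
  rcases hx.lt_or_eq with hx0 | hx0
  swap
  · rw [← hx0, mul_zero]
    refine Finset.sum_nonpos fun j hj => ?_
    have := hF.u1 j (mem_Jo.1 hj)
    rwa [← hx0] at this
  by_contra hcon
  push Not at hcon
  have hclaim : ∀ l (m : ℕ), T1 ≤ m → ∃ τ : W → Fin q → ℕ, (∀ w, HasB (P l) (m - t l) (τ w)) ∧
      x * (m * finrank K (VM (P l) (m - t l)) + if (∃ k, X k ∉ P l) then δ else 0) ≤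
        ∑ w, ∑ j, (τ w j : ℝ) * a w j := by
    intro l m hm
    have h0 := hT1l l
    by_cases hl : ∃ k, X k ∉ P l
    · rw [if_pos hl]
      by_contra hneg
      push Not at hneg
      obtain ⟨k, hk⟩ := hl
      have hH : 1 ≤ (finrank K (VM (P l) (m - t l)) : ℝ) := by
        exact_mod_cast one_le_finrank (hP l).1 hk _
      set H : ℝ := (finrank K (VM (P l) (m - t l)) : ℝ) with hHd
      have hmt : ((m - t l : ℕ) : ℝ) = m - t l := by
        rw [Nat.cast_sub]
        omega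
      have hm1 : (1 : ℝ) ≤ ((m - t l : ℕ) : ℝ) := by
        have : 1 ≤ m - t l := by omega
        exact_mod_cast this
      have h2t := hT1r l m hm
      have hcomp : x * (m * H + δ) ≤ (1 + η) * x * (((m - t l : ℕ) : ℝ) * H) := by
        have h3 : (m : ℝ) * H + δ ≤ (1 + η) * (((m - t l : ℕ) : ℝ) * H) := by
          have h4 : δ ≤ (η * ((m - t l : ℕ) : ℝ) - t l) * H := by
            have h5 : δ ≤ η * ((m - t l : ℕ) : ℝ) - t l := by
              have : η * 1 ≤ η * ((m - t l : ℕ) : ℝ) := mul_le_mul_of_nonneg_left hm1 hη0.le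
              rw [hδ]
              linarith
            have h6 : 0 ≤ η * ((m - t l : ℕ) : ℝ) - t l := hδ0.le.trans h5
            nlinarith
          have h7 : (m : ℝ) = ((m - t l : ℕ) : ℝ) + t l := by rw [hmt]; ring
          nlinarith
        have h8 := mul_le_mul_of_nonneg_left h3 hx
        linarith
      have hcl := hMl l ⟨k, hk⟩ (m - t l) (by omega) W a ((1 + η) * x) ⟨by positivity, ha, hF.sp,
        ?_, ?_⟩
      · -- conclusion for `Q`
        apply absurd hcon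
        rw [not_lt]
        have hsplit : ∑ j ∈ Jo Q, ∑ w, a w j = ∑ j ∈ Jo (P l), ∑ w, a w j +
            ∑ j ∈ (Ji (P l)) \ (Ji Q), ∑ w, a w j := by
          rw [← Finset.sum_union]
          · refine Finset.sum_congr ?_ fun _ _ => rfl
            ext j
            simp only [Finset.mem_union, Finset.mem_sdiff, mem_Jo, mem_Ji]
            have := (hP l).2.2.le (x := (X j : MvPolynomial (Fin q) K))
            tauto
          · rw [Finset.disjoint_left]
            intro j hj hj'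
            rw [Finset.mem_sdiff, mem_Ji] at hj'
            exact (mem_Jo.1 hj) hj'.1
        have hsub : Ji Q ⊆ Ji (P l) := fun j hj => mem_Ji.2 ((hP l).2.2.le (mem_Ji.1 hj))
        have hcardsub : (((Ji (P l)) \ (Ji Q)).card : ℝ) = (Ji (P l)).card - (Ji Q).card := by
          rw [Finset.card_sdiff_of_subset hsub, Nat.cast_sub (Finset.card_le_card hsub)]
        have h3 : ∑ j ∈ (Ji (P l)) \ (Ji Q), ∑ w, a w j ≤
            ((Ji (P l)).card - (Ji Q).card : ℝ) * x := by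
          rw [← hcardsub, ← nsmul_eq_mul]
          refine Finset.sum_le_card_nsmul _ _ _ fun j hj => hF.u1 j ?_
          rw [Finset.mem_sdiff, mem_Ji, mem_Ji] at hj
          exact hj.2
        rw [hsplit]
        have hs0 : (0 : ℝ) ≤ (Ji (P l)).card := Nat.cast_nonneg _
        have h4 : ((N : ℝ) + ν - (Ji (P l)).card + ε / 2) * ((1 + η) * x) ≤
            (N + ν - (Ji (P l)).card + ε) * x := by
          have h5 : ((N : ℝ) + ν - (Ji (P l)).card + ε / 2) * (1 + η) ≤
              N + ν - (Ji (P l)).card + ε := by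
            have h6 : η * ((N : ℝ) + ν - (Ji (P l)).card + ε / 2) ≤ η * (N + ν + ε) :=
              mul_le_mul_of_nonneg_left (by linarith) hη0.le
            nlinarith
          have h7 := mul_le_mul_of_nonneg_right h5 hx
          linarith
        nlinarith
      · intro j hj
        have h3 := hF.u1 j (fun h => hj ((hP l).2.2.le h))
        have : 0 ≤ η * x := by positivity
        linarith
      · intro τ hτ
        have := (hneg τ hτ).le
        linarith
    · rw [if_neg hl]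
      push Not at hl
      refine ⟨fun _ _ => 0, fun w => HasB.zero _ _, ?_⟩
      rw [finrank_irrel hl (by omega)]
      simp
  have hG : ∀ m : ℕ, T1 ≤ m → ∃ τ : W → Fin q → ℕ, (∀ w, HasB Q m (τ w)) ∧
      x * (m * finrank K (VM Q m) - C0 + δ * (m - T1)) ≤ ∑ w, ∑ j, (τ w j : ℝ) * a w j := by
    intro m hm
    induction m, hm using Nat.le_induction with
    | base =>
      refine ⟨fun _ _ => 0, fun w => HasB.zero _ _, ?_⟩
      simp [hC0]
    | succ m hm ih =>
      obtain ⟨τ0, hτ0, h1⟩ := ih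
      choose τ hτ h2 using fun l => hclaim l (m + 1) (by omega)
      have hl : ∀ l, t l ≤ m + 1 := fun l => by
        have := hT1l l
        omega
      obtain ⟨h3, h4⟩ := hst (m + 1) (by omega) hl
      refine ⟨fun w j => ∑ l, τ l w j + τ0 w j + if j = i then finrank K (VM Q m) else 0,
        fun w => h4 (τ0 w) (fun l => τ l w) (by simpa using hτ0 w) (fun l => hτ l w), ?_⟩
      have h5 : ∑ w, ∑ j, (((∑ l, τ l w j + τ0 w j + if j = i then finrank K (VM Q m) else 0 : ℕ)) : ℝ) *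
          a w j = ∑ l, (∑ w, ∑ j, (τ l w j : ℝ) * a w j) + ∑ w, ∑ j, (τ0 w j : ℝ) * a w j +
            finrank K (VM Q m) * x := by
        have e1 : ∀ w, ∑ j, (((∑ l, τ l w j + τ0 w j + if j = i then finrank K (VM Q m) else 0 : ℕ)) : ℝ) *
            a w j = ∑ l, ∑ j, (τ l w j : ℝ) * a w j + ∑ j, (τ0 w j : ℝ) * a w j +
              finrank K (VM Q m) * a w i := by
          intro w
          rw [Finset.sum_comm (γ := Fin L), ← Finset.sum_add_distrib]
          have e2 : (finrank K (VM Q m) : ℝ) * a w i =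
              ∑ j, (if j = i then (finrank K (VM Q m) : ℝ) else 0) * a w j := by
            simp
          rw [e2, ← Finset.sum_add_distrib]
          refine Finset.sum_congr rfl fun j _ => ?_
          push_cast
          rw [add_mul, add_mul, Finset.sum_mul]
        rw [Finset.sum_congr rfl fun w _ => e1 w, Finset.sum_add_distrib, Finset.sum_add_distrib,
          ← Finset.mul_sum, hui]
        congr 2
        exact Finset.sum_comm
      rw [h5]
      have h6 : ∑ l, x * ((m + 1 : ℕ) * finrank K (VM (P l) (m + 1 - t l)) +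
          if (∃ k, X k ∉ P l) then δ else 0) ≤ ∑ l, (∑ w, ∑ j, (τ l w j : ℝ) * a w j) :=
        Finset.sum_le_sum fun l _ => h2 l
      have h7 : x * ((m + 1 : ℕ) * (∑ l, (finrank K (VM (P l) (m + 1 - t l)) : ℝ)) + δ) ≤
          ∑ l, x * ((m + 1 : ℕ) * finrank K (VM (P l) (m + 1 - t l)) +
          if (∃ k, X k ∉ P l) then δ else 0) := by
        rw [← Finset.mul_sum, Finset.sum_add_distrib, ← Finset.mul_sum]
        refine mul_le_mul_of_nonneg_left ?_ hx
        refine add_le_add le_rfl ?_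
        obtain ⟨l, hl⟩ := hR
        have h8 : (if (∃ k, X k ∉ P l) then δ else 0) ≤
            ∑ l, (if (∃ k, X k ∉ P l) then δ else 0) :=
          Finset.single_le_sum (f := fun l => if (∃ k, X k ∉ P l) then δ else 0)
            (fun l _ => by split_ifs <;> [exact hδ0.le; exact le_rfl]) (Finset.mem_univ l)
        rwa [if_pos hl] at h8
      have h9 : (finrank K (VM Q (m + 1)) : ℝ) = finrank K (VM Q m) +
          ∑ l, (finrank K (VM (P l) (m + 1 - t l)) : ℝ) := by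
        rw [h3]
        push_cast
        simp
      rw [h9]
      push_cast at h6 h7 ⊢
      nlinarith
  obtain ⟨τ, hτ, h1⟩ := hG M (by omega)
  have h2 := hF.s1 τ hτ
  have h3 : x * (C0 - δ * (M - T1)) ≥ 0 := by nlinarith
  have h4 : C0 < δ * (M - T1) := by
    have h5 : C0 / δ ≤ ⌈C0 / δ⌉₊ := Nat.le_ceil _
    have h6 : ((T1 + 1 + ⌈C0 / δ⌉₊ : ℕ) : ℝ) ≤ M := by exact_mod_cast hM
    push_cast at h6
    rw [div_le_iff₀ hδ0] at h5
    nlinarith
  nlinarith

/-- the asymptotic inequality -/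
theorem claim {N ν : ℕ} (I0 : Ideal (MvPolynomial (Fin q) K))
    (hI0 : ∀ Q : Ideal (MvPolynomial (Fin q) K), Q.IsPrime → HG Q → I0 ≤ Q →
      (∃ J : Finset (Fin q), N < J.card ∧ ∀ j ∈ J, X j ∈ Q) → ∀ k, X k ∈ Q)
    (Q : Ideal (MvPolynomial (Fin q) K)) (hQ : HG Q) (hp : Q.IsPrime) (hle : I0 ≤ Q)
    (hrel : ∃ k, X k ∉ Q) : ∀ ε : ℝ, 0 < ε → ∃ M0 : ℕ, ∀ M, M0 ≤ M → Cm N ν Q ε M := by
  classical
  induction Q using WellFoundedGT.induction with
  | ind Q ih =>
    intro ε hε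
    have hN : (Ji Q).card ≤ N := by
      by_contra h
      push Not at h
      obtain ⟨k, hk⟩ := hrel
      exact hk (hI0 Q hp hQ hle ⟨Ji Q, h, fun j hj => mem_Ji.1 hj⟩ k)
    have hdata : ∀ i : Fin q, X i ∉ Q → ∃ M0 : ℕ, ∀ M, M0 ≤ M → Cm N ν Q ε M ∨ Cm1 N ν Q i ε M := by
      intro i hi
      obtain ⟨L, P, t, hP, hst⟩ := prime_step hQ hp hi
      by_cases hR : ∃ l k, X k ∉ P l
      · obtain ⟨M0, h1⟩ := case_pos (N := N) (ν := ν) hP hst hR (fun l hl =>
          ih (P l) (hP l).2.2 (hP l).2.1 (hP l).1 (hle.trans (hP l).2.2.le) hl) hε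
        exact ⟨M0, fun M hM => Or.inr (h1 M hM)⟩
      · push Not at hR
        obtain ⟨M0, h1⟩ := case_point hQ hp hrel hN (∑ l, (t l + 1)) (fun M hM => by
          induction M, hM using Nat.le_induction with
          | base => rfl
          | succ M hM ih' =>
            have hl : ∀ l, t l + 1 ≤ M := fun l =>
              (Finset.single_le_sum (f := fun l => t l + 1) (fun _ _ => Nat.zero_le _)
                (Finset.mem_univ l)).trans hM
            have h2 := (hst (M + 1) (by omega) (fun l => by have := hl l; omega)).1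
            rw [h2, Nat.add_sub_cancel, ih', Finset.sum_eq_zero fun l _ =>
              finrank_irrel (hR l) (by have := hl l; omega), add_zero]) hε
        exact ⟨M0, fun M hM => Or.inl (h1 M hM)⟩
    have hdata' : ∀ i : Fin q, ∃ M0 : ℕ, X i ∉ Q → (∀ M, M0 ≤ M → Cm N ν Q ε M ∨ Cm1 N ν Q i ε M) ∧
        ∀ M, M0 ≤ M → ∃ τ, HasB Q M τ ∧ 0 < τ i := by
      intro i
      by_cases hi : X i ∉ Q
      · obtain ⟨M0, h1⟩ := hdata i hi
        obtain ⟨T, h2⟩ := exists_large hQ hp hi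
        refine ⟨M0 + T + 1, fun _ => ⟨fun M hM => h1 M (by omega), fun M hM => ?_⟩⟩
        obtain ⟨τ, hτ, h3⟩ := h2 M (by omega)
        refine ⟨τ, hτ, lt_of_lt_of_le ?_ h3⟩
        have h4 : finrank K (VM Q T) ≤ ∑ m ∈ Finset.Ico T M, finrank K (VM Q m) :=
          Finset.single_le_sum (f := fun m => finrank K (VM Q m)) (fun _ _ => Nat.zero_le _)
            (Finset.mem_Ico.2 ⟨le_rfl, by omega⟩)
        have h5 := one_le_finrank hp hi T
        omega
      · exact ⟨0, fun h => absurd h hi⟩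
    choose Mi hMi using hdata'
    refine ⟨∑ i, Mi i, fun M hM => ?_⟩
    have hMle : ∀ i, Mi i ≤ M := fun i =>
      (Finset.single_le_sum (f := Mi) (fun _ _ => Nat.zero_le _) (Finset.mem_univ i)).trans hM
    by_cases hcl : Cm N ν Q ε M
    · exact hcl
    · refine cm_of_cm1 hε (fun i hi => ?_) (fun j hj => (hMi j hj).2 M (hMle j)) hN
      rcases (hMi i hi).1 M (hMle i) with h | h
      · exact absurd h hcl
      · exact h

end Pool.Agent.H430.Nm
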