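import Pool.Agent.H426.Two.GT2
import Pool.Agent.H430.Nm.Claim

/-!
The inequality for the coordinate hyperplanes and rational points, if at every place at most `ν`
of the coordinate hyperplanes are taken into account.
-/

set_option autoImplicit false

namespace Pool.Agent.H430.Nm

open MvPolynomial Finset Module NumberField IsDedekindDomain Height
open Pool.Agent.W180.OP Pool.Agent.W180.TP Pool.Agent.NH28
open Pool.Agent.TH875 (VM VM_finite not_all form_ub)
open Pool.Agent.H426.Ru (HG noeth main_f cone)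
open Pool.Agent.H426.Two (HasB HasB.zero Jo Ji mem_Jo mem_Ji Fam Sparse lc lc_nonneg basis_ineq
  sparse sum_lc_le)

variable {K : Type} [Field K] [NumberField K] {q : ℕ}

/-- the bound for a prime ideal without variables -/
lemma prime_bound {N : ℕ} (ν : ℕ) {I0 : Ideal (MvPolynomial (Fin q) K)} (h0 : HG I0) (hI0 : Sparse N I0)
    {P : Ideal (MvPolynomial (Fin q) K)} (hP : HG P) (hp : P.IsPrime) (hle : I0 ≤ P)
    (hX : ∀ j, X j ∉ P) (k0 : Fin q) {ε : ℝ} (hε : 0 < ε) :
    ∃ Z : MvPolynomial (Fin q) K, Z ∉ P ∧ (∃ t, Z.IsHomogeneous t) ∧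
      ∀ S : Finset (Pl K), ∃ C : ℝ, 0 ≤ C ∧ ∀ y : Fin q → K, (∀ j, y j ≠ 0) →
        (∀ p ∈ P, aeval y p = 0) → aeval y Z ≠ 0 →
        ∀ I : Pl K → Finset (Fin q), (∀ v ∈ S, (I v).card ≤ ν) →
        ∑ v ∈ S, ∑ j ∈ I v, lc v y j ≤ (N + (min ν N : ℕ) + ε) * logHeight y + C := by
  classical
  obtain ⟨C1, hC10, hb⟩ := basis_ineq hP hp hX k0
  obtain ⟨M0, hM0⟩ := claim (ν := min ν N) I0 hI0 P hP hp hle ⟨k0, hX k0⟩ (ε / 2) (by positivity)
  obtain ⟨Cs, hCs0, hCs⟩ := sparse h0 hI0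
  choose Cl hCl0 hCl using fun j : Fin q => sum_lc_le (K := K) j
  have hCls : 0 ≤ ∑ j, Cl j := Finset.sum_nonneg fun t _ => hCl0 t
  set A : ℝ := (N + (min ν N : ℕ) + ε / 2) * (C1 + 1) with hA
  have hA0 : 0 ≤ A := by positivity
  set M : ℕ := M0 + 1 + ⌈A / (ε / 2)⌉₊ with hM
  have hM1 : (1 : ℝ) ≤ M := by
    have : 1 ≤ M := by omega
    exact_mod_cast this
  have hMA : A ≤ ε / 2 * M := by
    have h5 : A / (ε / 2) ≤ ⌈A / (ε / 2)⌉₊ := Nat.le_ceil _
    have h6 : ((⌈A / (ε / 2)⌉₊ : ℕ) : ℝ) ≤ M := by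
      have : ⌈A / (ε / 2)⌉₊ ≤ M := by omega
      exact_mod_cast this
    rw [div_le_iff₀ (by positivity)] at h5
    nlinarith
  obtain ⟨Z, hZ, hZt, hb⟩ := hb M
  refine ⟨Z, hZ, hZt, fun S => ?_⟩
  obtain ⟨C, hC0, hC⟩ := hb S
  refine ⟨(N + (min ν N : ℕ) + ε / 2) * (C + M * ∑ j, Cl j) + S.card * (q * Cs), by positivity,
    fun y hy hyP hyZ I hI => ?_⟩
  have hh := logHeight_nonneg y
  set h : ℝ := logHeight y with hhd
  have hlc0 : ∀ v j, 0 ≤ lc v y j := fun v j => lc_nonneg v j (hy j)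
  set x : ℝ := ((M + C1 + 1) * h + (C + M * ∑ j, Cl j)) / M with hx
  have hM0' : (0 : ℝ) < M := by linarith
  have hxM : x * M = (M + C1 + 1) * h + (C + M * ∑ j, Cl j) := by
    rw [hx, div_mul_cancel₀ _ hM0'.ne']
  have hx0 : 0 ≤ x := by rw [hx]; positivity
  set a : S → Fin q → ℝ := fun v j => if j ∈ I v.1 then max (lc v.1 y j - Cs) 0 else 0 with hadef
  have ha00 : ∀ v j, 0 ≤ a v j := by
    intro v j
    simp only [hadef]
    split_ifs
    · exact le_max_right _ _
    · exact le_rfl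
  have ha0 : ∀ v j, a v j ≤ lc v.1 y j := by
    intro v j
    simp only [hadef]
    split_ifs
    · exact max_le (by linarith) (hlc0 v.1 j)
    · exact hlc0 v.1 j
  have hFam : Fam (min ν N) P M (W := S) a x := by
    refine ⟨hx0, ha00, fun v => le_min ?_ ?_, fun j _ => ?_, fun τ hτ => ?_⟩
    · refine (Finset.card_le_card ?_).trans (hI v.1 v.2)
      intro j hj
      have h1 := (Finset.mem_filter.1 hj).2
      by_contra h2
      exact h1 (by simp only [hadef, if_neg h2])
    · refine (Finset.card_le_card ?_).trans (hCs v.1 y hy fun p hp => hyP p (hle hp))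
      intro j hj
      have h1 := (Finset.mem_filter.1 hj).2
      refine Finset.mem_filter.2 ⟨Finset.mem_univ _, fun h2 => h1 ?_⟩
      simp only [hadef, h2, ite_self]
    · have h1 : ∑ v : S, a v j ≤ ∑ v : S, lc v.1 y j :=
        Finset.sum_le_sum fun v _ => ha0 v j
      rw [Finset.sum_coe_sort S (fun v => lc v y j)] at h1
      have h2 := hCl j S y (hy j)
      have h3 : Cl j ≤ ∑ j, Cl j :=
        Finset.single_le_sum (f := Cl) (fun t _ => hCl0 t) (Finset.mem_univ _)
      refine h1.trans (h2.trans ?_)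
      rw [hx, le_div_iff₀ hM0']
      have h4 : 0 ≤ C1 * h := by positivity
      nlinarith
    · have h1 := hC y hy hyP hyZ (fun v => if hv : v ∈ S then τ ⟨v, hv⟩ else fun _ => 0) (by
        intro v
        by_cases hv : v ∈ S
        · rw [dif_pos hv]
          exact hτ _
        · rw [dif_neg hv]
          exact HasB.zero P M)
      rw [← Finset.sum_coe_sort S] at h1
      have h2 : ∑ v : S, ∑ j, (τ v j : ℝ) * a v j ≤
          ∑ v : S, ∑ j, (((if hv : v.1 ∈ S then τ ⟨v.1, hv⟩ else fun _ => 0 : Fin q → ℕ) j : ℕ) : ℝ) *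
            lc v.1 y j := by
        refine Finset.sum_le_sum fun v _ => Finset.sum_le_sum fun j _ => ?_
        rw [dif_pos v.2]
        exact mul_le_mul_of_nonneg_left (ha0 v j) (Nat.cast_nonneg _)
      refine h2.trans (h1.trans ?_)
      have h3 : x * (M * (finrank K (VM P M) : ℝ)) = finrank K (VM P M) * (x * M) := by ring
      rw [h3, hxM]
      refine mul_le_mul_of_nonneg_left ?_ (Nat.cast_nonneg _)
      have : 0 ≤ M * ∑ j, Cl j := by positivity
      linarith
  have hmain := hM0 M (by omega) S _ x hFam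
  have hJo : Jo P = Finset.univ := by
    ext j
    simp [mem_Jo, hX j]
  have hJi : Ji P = ∅ := by
    ext j
    simp [mem_Ji, hX j]
  rw [hJo, hJi, Finset.card_empty, Finset.sum_comm] at hmain
  have h1 : ∑ v ∈ S, ∑ j ∈ I v, lc v y j ≤ ∑ v : S, ∑ j, (a v j + Cs) := by
    rw [← Finset.sum_coe_sort S]
    refine Finset.sum_le_sum fun v _ => ?_
    refine le_trans (Finset.sum_le_sum (g := fun j => a v j + Cs) fun j hj => ?_)
      (Finset.sum_le_sum_of_subset_of_nonneg (Finset.subset_univ _) fun j _ _ => ?_)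
    · simp only [hadef, if_pos hj]
      have := le_max_left (lc v.1 y j - Cs) 0
      linarith
    · have := ha00 v j
      linarith
  have h2 : ∑ v : S, ∑ j, (a v j + Cs) =
      ∑ v : S, ∑ j, a v j + S.card * (q * Cs) := by
    simp only [Finset.sum_add_distrib, Finset.sum_const, Finset.card_univ, Fintype.card_fin,
      Fintype.card_coe, nsmul_eq_mul]
  rw [h2] at h1
  have h3 : (N + (min ν N : ℕ) + ε / 2) * x ≤ (N + (min ν N : ℕ) + ε) * h + (N + (min ν N : ℕ) + ε / 2) * (C + M * ∑ j, Cl j) := by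
    rw [hx, ← mul_div_assoc, div_le_iff₀ hM0']
    have h4 : A * h ≤ ε / 2 * M * h := mul_le_mul_of_nonneg_right hMA hh
    have h5 : 0 ≤ (N + (min ν N : ℕ) + ε / 2) * (C + M * ∑ j, Cl j) := by positivity
    have h6 : (N + (min ν N : ℕ) + ε / 2) * (C + M * ∑ j, Cl j) ≤
        (N + (min ν N : ℕ) + ε / 2) * (C + M * ∑ j, Cl j) * M := le_mul_of_one_le_right h5 hM1
    have h7 : (N + (min ν N : ℕ) + ε / 2) * ((M + C1 + 1) * h + (C + M * ∑ j, Cl j)) =
        (N + (min ν N : ℕ) + ε / 2) * M * h + A * h + (N + (min ν N : ℕ) + ε / 2) * (C + M * ∑ j, Cl j) := by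
      rw [hA]; ring
    rw [h7]
    nlinarith
  simp only [Nat.cast_zero, sub_zero] at hmain
  linarith

/-- **The inequality for the coordinate hyperplanes and rational points.** -/
theorem gt {N : ℕ} (ν : ℕ) {I0 : Ideal (MvPolynomial (Fin q) K)} (h0 : HG I0) (hI0 : Sparse N I0)
    {ε : ℝ} (hε : 0 < ε) (S : Finset (Pl K)) :
    ∃ C : ℝ, 0 ≤ C ∧ ∀ y : Fin q → K, (∀ j, y j ≠ 0) → (∀ p ∈ I0, aeval y p = 0) →
      ∀ I : Pl K → Finset (Fin q), (∀ v ∈ S, (I v).card ≤ ν) →
      ∑ v ∈ S, ∑ j ∈ I v, lc v y j ≤ (N + (min ν N : ℕ) + ε) * logHeight y + C := by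
  classical
  rcases Nat.eq_zero_or_pos q with hq | hq
  · subst hq
    refine ⟨0, le_rfl, fun y _ _ I _ => ?_⟩
    have := logHeight_nonneg y
    have h1 : ∀ v, I v = ∅ := fun v => Finset.eq_empty_of_isEmpty _
    simp only [h1, Finset.sum_empty, Finset.sum_const_zero, add_zero]
    positivity
  refine noeth (fun I => ∃ C : ℝ, 0 ≤ C ∧ ∀ y : Fin q → K, (∀ j, y j ≠ 0) →
    (∀ p ∈ I, aeval y p = 0) → ∀ I : Pl K → Finset (Fin q), (∀ v ∈ S, (I v).card ≤ ν) →
      ∑ v ∈ S, ∑ j ∈ I v, lc v y j ≤ (N + (min ν N : ℕ) + ε) * logHeight y + C) I0 h0 ?_ ?_ ?_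
  · refine ⟨0, le_rfl, fun y _ h => ?_⟩
    exact absurd (h 1 Submodule.mem_top) (by rw [map_one]; exact one_ne_zero)
  · intro P hP hp hle
    by_cases hX : ∃ j, X j ∈ P
    · obtain ⟨j, hj⟩ := hX
      refine ⟨1, 0, isHomogeneous_one _ _, fun h => hp.ne_top ((Ideal.eq_top_iff_one P).2 h),
        fun _ => ⟨0, le_rfl, fun y hy h => ?_⟩⟩
      have := h _ hj
      rw [aeval_X] at this
      exact absurd this (hy j)
    · push Not at hX
      obtain ⟨Z, hZ, ⟨t, hZt⟩, hb⟩ := prime_bound ν h0 hI0 hP hp hle hX ⟨0, hq⟩ hε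
      refine ⟨Z, t, hZt, hZ, ?_⟩
      rintro ⟨C2, hC2, h2⟩
      obtain ⟨C1, hC1, h1⟩ := hb S
      refine ⟨C1 + C2, by positivity, fun y hy hyP I hI => ?_⟩
      by_cases hyZ : aeval y Z = 0
      · have h3 := h2 y hy (by
          intro p hp
          rw [sup_comm, Ideal.mem_span_singleton_sup] at hp
          obtain ⟨a, b, hb, rfl⟩ := hp
          rw [map_add, map_mul, hyZ, mul_zero, hyP b hb, add_zero]) I hI
        linarith
      · have h3 := h1 y hy hyP hyZ I hI
        linarith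
  · intro I' a b hI' hle hab h1 h2
    obtain ⟨C1, hC1, h1⟩ := h1
    obtain ⟨C2, hC2, h2⟩ := h2
    refine ⟨C1 + C2, by positivity, fun y hy hyI I hI => ?_⟩
    have h3 := hyI _ hab
    rw [map_mul, mul_eq_zero] at h3
    rcases h3 with h3 | h3
    · have h4 := h1 y hy (by
        intro p hp
        rw [sup_comm, Ideal.mem_span_singleton_sup] at hp
        obtain ⟨a, b, hb, rfl⟩ := hp
        rw [map_add, map_mul, h3, mul_zero, hyI b hb, add_zero]) I hI
      linarith
    · have h4 := h2 y hy (by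
        intro p hp
        rw [sup_comm, Ideal.mem_span_singleton_sup] at hp
        obtain ⟨a, b, hb, rfl⟩ := hp
        rw [map_add, map_mul, h3, mul_zero, hyI b hb, add_zero]) I hI
      linarith

end Pool.Agent.H430.Nm
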