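import Pool.Agent.H430.Nm.Red

/-!
Hypersurfaces of arbitrary degrees: at every place at most `ν` of them are taken into account.
-/

set_option autoImplicit false

namespace Pool.Agent.H430.Nm

open MvPolynomial Finset Module NumberField IsDedekindDomain Height
open Pool.Agent.W180.OP Pool.Agent.W180.TP Pool.Agent.NH28

variable {K : Type} [Field K] [NumberField K]

theorem gen_aux {n m q N r : ℕ} (ν : ℕ)
    (G : Fin m → MvPolynomial (Fin n) K) (g : Fin m → ℕ) (hG : ∀ k, (G k).IsHomogeneous (g k))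
    (F : Fin q → MvPolynomial (Fin n) K) (d : Fin q → ℕ) (hd : ∀ i, 1 ≤ d i)
    (hF : ∀ i, (F i).IsHomogeneous (d i))
    (hgp : ∀ J : Fin (N + 1) ↪ Fin q, ∀ (E : Type) [Field E] [Algebra K E] (x : Fin n → E),
      (∀ k, aeval x (G k) = 0) → (∀ k, aeval x (F (J k)) = 0) → x = 0) {ε : ℝ} (hε : 0 < ε)
    (S : Finset (Pl K)) :
    ∃ C : ℝ, 0 ≤ C ∧ ∀ (L : Type) [Field L] [NumberField L] [Algebra K L], finrank K L ≤ r →
      ∀ x : Fin n → L, x ≠ 0 → (∀ k, aeval x (G k) = 0) → (∀ j, aeval x (F j) ≠ 0) →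
      ∀ I : Pl K → Finset (Fin q), (∀ v ∈ S, (I v).card ≤ ν) →
      ∑ v ∈ S, ∑ j ∈ I v, (∑ w ∈ ab L v, wt w * lam (av w) (d j) (bc L (F j)) x) / d j ≤
        ((N * finrank K L : ℕ) + (min ν (N * finrank K L) : ℕ) + ε) * logHeight x + C := by
  classical
  set e : ℕ := ∏ i, d i with he
  have he1 : 1 ≤ e := Finset.one_le_prod' fun i _ => hd i
  have hdvd : ∀ i, d i ∣ e := fun i => Finset.dvd_prod_of_mem d (Finset.mem_univ i)
  choose c hc using hdvd
  have hF' : ∀ i, (F i ^ c i).IsHomogeneous e := fun i => by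
    have := (hF i).pow (c i)
    rwa [← hc i] at this
  have hc0 : ∀ i, c i ≠ 0 := by
    intro i h
    have := hc i
    rw [h, mul_zero] at this
    omega
  obtain ⟨C, hC0, hC⟩ := red_r (r := r) (N := N) ν he1 G g hG (fun i => F i ^ c i) hF' (by
    intro J E _ _ x h1 h2
    refine hgp J E x h1 fun k => ?_
    have := h2 k
    rw [map_pow] at this
    exact (pow_eq_zero_iff (hc0 _)).1 this) hε S
  refine ⟨C, hC0, fun L _ _ _ hL x hx hGx hFx I hI => ?_⟩
  have h1 := hC L hL x hx hGx (fun i => by rw [map_pow]; exact pow_ne_zero _ (hFx i)) I hI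
  have he0 : (0 : ℝ) < e := by exact_mod_cast he1
  have he1' : (1 : ℝ) ≤ e := by exact_mod_cast he1
  have hd0 : ∀ i, (1 : ℝ) ≤ d i := fun i => by exact_mod_cast hd i
  have hlam : ∀ (w : Pl L) (i : Fin q), lam (av w) e (bc L (F i ^ c i)) x =
      e * (lam (av w) (d i) (bc L (F i)) x / d i) := by
    intro w i
    have h2 : eval x (bc L (F i)) = aeval x (F i) := eval_bc _ _
    have h3 : eval x (bc L (F i ^ c i)) = aeval x (F i) ^ c i := by rw [eval_bc, map_pow]
    have h4 := hd0 i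
    have h5 : (e : ℝ) = d i * c i := by exact_mod_cast hc i
    rw [lam_eq (av w) e _ hx (by rw [h3]; exact pow_ne_zero _ (hFx i)), h3,
      lam_eq (av w) (d i) _ hx (by rw [h2]; exact hFx i), h2, map_pow, Real.log_pow, h5]
    field_simp
  have h2 : ∑ v ∈ S, ∑ j ∈ I v, ∑ w ∈ ab L v, wt w * lam (av w) e (bc L (F j ^ c j)) x =
      e * ∑ v ∈ S, ∑ j ∈ I v, (∑ w ∈ ab L v, wt w * lam (av w) (d j) (bc L (F j)) x) / d j := by
    simp only [hlam, Finset.mul_sum, Finset.sum_div]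
    refine Finset.sum_congr rfl fun v _ => Finset.sum_congr rfl fun j _ =>
      Finset.sum_congr rfl fun w _ => ?_
    ring
  rw [h2] at h1
  have h4 : C ≤ e * C := le_mul_of_one_le_left hC0 he1'
  refine le_of_mul_le_mul_left ?_ he0
  linarith

/-- **The inequality for hypersurfaces of any degrees, all points of degree at most `r`, and at
most `ν` of the hypersurfaces at each place.** -/
theorem gen {n m q N r : ℕ}
    (G : Fin m → MvPolynomial (Fin n) K) (g : Fin m → ℕ) (hG : ∀ k, (G k).IsHomogeneous (g k))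
    (F : Fin q → MvPolynomial (Fin n) K) (d : Fin q → ℕ) (hd : ∀ i, 1 ≤ d i)
    (hF : ∀ i, (F i).IsHomogeneous (d i))
    (hgp : ∀ J : Fin (N + 1) ↪ Fin q, ∀ (E : Type) [Field E] [Algebra K E] (x : Fin n → E),
      (∀ k, aeval x (G k) = 0) → (∀ k, aeval x (F (J k)) = 0) → x = 0) {ε : ℝ} (hε : 0 < ε)
    (S : Finset (Pl K)) :
    ∃ C : ℝ, ∀ (L : Type) [Field L] [NumberField L] [Algebra K L], finrank K L ≤ r →
      ∀ x : Fin n → L, x ≠ 0 → (∀ k, aeval x (G k) = 0) → (∀ j, aeval x (F j) ≠ 0) →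
      ∀ (ν : ℕ) (I : Pl K → Finset (Fin q)), (∀ v ∈ S, (I v).card ≤ ν) →
      ∑ v ∈ S, ∑ j ∈ I v, (∑ w ∈ ab L v, wt w * lam (av w) (d j) (bc L (F j)) x) / d j ≤
        ((N * finrank K L : ℕ) + (min ν (N * finrank K L) : ℕ) + ε) * logHeight x + C := by
  classical
  choose C hC0 hC using fun ν : ℕ => gen_aux (r := r) ν G g hG F d hd hF hgp hε S
  refine ⟨∑ ν ∈ Finset.range (q + 1), C ν, fun L _ _ _ hL x hx hGx hFx ν I hI => ?_⟩
  have hI' : ∀ v ∈ S, (I v).card ≤ min ν q := fun v hv => le_min (hI v hv) (by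
    have := Finset.card_le_univ (I v)
    rwa [Fintype.card_fin] at this)
  have h1 := hC (min ν q) L hL x hx hGx hFx I hI'
  have h2 : C (min ν q) ≤ ∑ ν ∈ Finset.range (q + 1), C ν :=
    Finset.single_le_sum (f := C) (fun δ _ => hC0 δ) (Finset.mem_range.2 (by omega))
  have h3 : ((min (min ν q) (N * finrank K L) : ℕ) : ℝ) ≤ (min ν (N * finrank K L) : ℕ) := by
    have : min (min ν q) (N * finrank K L) ≤ min ν (N * finrank K L) := by omega
    exact_mod_cast this
  have h4 := logHeight_nonneg x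
  have h5 := mul_le_mul_of_nonneg_right h3 h4
  linarith

end Pool.Agent.H430.Nm
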