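import Pool.Agent.H426.Two.Red
import Pool.Agent.H430.Nm.GT

/-!
The reduction of the inequality for the points of bounded degree to rational points, if at every
place at most `ν` of the hypersurfaces are taken into account.
-/

set_option autoImplicit false

namespace Pool.Agent.H430.Nm

open MvPolynomial Finset Module NumberField IsDedekindDomain Height
open Pool.Agent.W180.OP Pool.Agent.W180.TP Pool.Agent.NH28
open Pool.Agent.TH875 (VM VM_finite not_all form_ub)
open Pool.Agent.H426.Ru (HG noeth main_f cone)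
open Pool.Agent.H426.Two (Sparse lc norm_mem)

variable {K : Type} [Field K] [NumberField K]

/-- few hypersurfaces -/
lemma few {n q e δ : ℕ} (F : Fin q → MvPolynomial (Fin n) K) (hF : ∀ i, (F i).IsHomogeneous e)
    (S : Finset (Pl K)) :
    ∃ C : ℝ, 0 ≤ C ∧ ∀ (L : Type) [Field L] [NumberField L] [Algebra K L], finrank K L = δ →
      ∀ x : Fin n → L, x ≠ 0 → (∀ j, aeval x (F j) ≠ 0) → ∀ I : Pl K → Finset (Fin q),
      ∑ v ∈ S, ∑ j ∈ I v, ∑ w ∈ ab L v, wt w * lam (av w) e (bc L (F j)) x ≤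
        q * (e * logHeight x) + C := by
  classical
  choose Cb hCb0 hCb using fun i : Fin q => liou_u (F i) e (hF i)
  have hCbs : 0 ≤ ∑ i, Cb i := Finset.sum_nonneg fun e _ => hCb0 e
  refine ⟨(∑ i, Cb i) * (finrank ℚ K * δ), by positivity, ?_⟩
  intro L _ _ _ hrL x hx hFx I
  have hfq : (finrank ℚ L : ℝ) = finrank ℚ K * δ := by
    have h1 : finrank ℚ K * finrank K L = finrank ℚ L := finrank_mul_finrank ℚ K L
    rw [← h1, hrL]
    push_cast
    ring
  have h0 : ∑ v ∈ S, ∑ j ∈ I v, ∑ w ∈ ab L v, wt w * lam (av w) e (bc L (F j)) x ≤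
      ∑ v ∈ S, ∑ w ∈ ab L v, ∑ j, wt w * max 0 (lam (av w) e (bc L (F j)) x) := by
    refine Finset.sum_le_sum fun v _ => ?_
    rw [Finset.sum_comm]
    refine Finset.sum_le_sum fun w _ => ?_
    refine (Finset.sum_le_sum fun j _ =>
      mul_le_mul_of_nonneg_left (le_max_right 0 _) (wt_nonneg w)).trans ?_
    exact Finset.sum_le_sum_of_subset_of_nonneg (Finset.subset_univ _) fun j _ _ =>
      mul_nonneg (wt_nonneg w) (le_max_left _ _)
  refine h0.trans ?_
  obtain ⟨T, hT⟩ := Pool.Agent.H426.Two.sum_ab (L := L) S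
    (fun w => ∑ j, wt w * max 0 (lam (av w) e (bc L (F j)) x))
  rw [hT, Finset.sum_comm]
  have h2 : ∑ j, ∑ w ∈ T, wt w * max 0 (lam (av w) e (bc L (F j)) x) ≤
      ∑ j, (e * logHeight x + Cb j * (finrank ℚ K * δ)) := by
    refine Finset.sum_le_sum fun j _ => ?_
    have h3 := hCb j L T x hx (hFx j)
    rw [hfq] at h3
    exact h3
  refine h2.trans (le_of_eq ?_)
  rw [Finset.sum_add_distrib, Finset.sum_const, Finset.card_univ, Fintype.card_fin, nsmul_eq_mul,
    Finset.sum_mul]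

/-- **The inequality for the points of degree `δ`.** -/
theorem red_delta {n m q N e δ : ℕ} (ν : ℕ) (hδ : 1 ≤ δ) (he : 1 ≤ e)
    (G : Fin m → MvPolynomial (Fin n) K) (g : Fin m → ℕ) (hG : ∀ k, (G k).IsHomogeneous (g k))
    (F : Fin q → MvPolynomial (Fin n) K) (hF : ∀ i, (F i).IsHomogeneous e)
    (hgp : ∀ J : Fin (N + 1) ↪ Fin q, ∀ (E : Type) [Field E] [Algebra K E] (x : Fin n → E),
      (∀ k, aeval x (G k) = 0) → (∀ k, aeval x (F (J k)) = 0) → x = 0) {ε : ℝ} (hε : 0 < ε)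
    (S : Finset (Pl K)) :
    ∃ C : ℝ, 0 ≤ C ∧ ∀ (L : Type) [Field L] [NumberField L] [Algebra K L], finrank K L = δ →
      ∀ x : Fin n → L, x ≠ 0 → (∀ k, aeval x (G k) = 0) → (∀ j, aeval x (F j) ≠ 0) →
      ∀ I : Pl K → Finset (Fin q), (∀ v ∈ S, (I v).card ≤ ν) →
      ∑ v ∈ S, ∑ j ∈ I v, ∑ w ∈ ab L v, wt w * lam (av w) e (bc L (F j)) x ≤
        ((N * δ : ℕ) + (min ν (N * δ) : ℕ) + ε) * (e * logHeight x) + C := by
  classical
  by_cases hq : q ≤ N * δ
  · obtain ⟨C, hC0, hC⟩ := few (δ := δ) F hF S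
    refine ⟨C, hC0, fun L _ _ _ hL x hx _ hFx I _ => (hC L hL x hx hFx I).trans ?_⟩
    have hh := logHeight_nonneg x
    have h1 : (q : ℝ) ≤ (N * δ : ℕ) := by exact_mod_cast hq
    have h2 : (0 : ℝ) ≤ (min ν (N * δ) : ℕ) := Nat.cast_nonneg _
    have h3 : 0 ≤ e * logHeight x := by positivity
    have h4 : (q : ℝ) * (e * logHeight x) ≤
        ((N * δ : ℕ) + (min ν (N * δ) : ℕ) + ε) * (e * logHeight x) :=
      mul_le_mul_of_nonneg_right (by linarith) h3
    linarith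
  push Not at hq
  have h5 : ∀ (K L : Type) [Field K] [NumberField K] [Field L] [NumberField L] [Algebra K L]
      (v : Pl K) (z : L), z ≠ 0 →
      ∑ w ∈ ab L v, wt w * Real.log (av w z) = wt v * Real.log (av v (Algebra.norm K z)) :=
    fun K L _ _ _ _ _ v z hz => Pool.Agent.H738.Two5.norm_places v z hz
  obtain ⟨I0, hI0, hI0m, hI0s⟩ := Pool.Agent.H264.TwoT4.prime_cond (N := N) hδ he G g hG F hF hgp
  obtain ⟨C, hC0, hC⟩ := gt ν hI0 (N := N * δ) hI0s hε S
  obtain ⟨C', hC'0, hC'⟩ := Pool.Agent.H249.Two7a.height_norm_le h5 F hF δ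
  choose Cv hCv0 hCv using fun v : Pl K =>
    Pool.Agent.H996.Two.nrm_norm_ge (δ := δ) h5 hq G g hG F hF hgp v
  have hCvs : 0 ≤ ∑ v ∈ S, Cv v := Finset.sum_nonneg fun v _ => hCv0 v
  refine ⟨C + ((N * δ : ℕ) + (min ν (N * δ) : ℕ) + ε) * C' + q * ∑ v ∈ S, Cv v, by positivity,
    fun L _ _ _ hL x hx hGx hFx I hI => ?_⟩
  have hfin : FiniteDimensional K L := Module.Finite.of_restrictScalars_finite ℚ K L
  set y : Fin q → K := fun j => Algebra.norm K (aeval x (F j)) with hy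
  have hy0 : ∀ j, y j ≠ 0 := fun j => by
    rw [hy]
    exact (Algebra.norm_ne_zero_iff (R := K)).2 (hFx j)
  have h1 := hC y hy0 (fun p hp => norm_mem hL G F p (fun E _ _ x hx => hI0m E x hx p hp) x hGx)
    I hI
  have h2 := hC' L hL.le x hx hFx
  have h3 : ∀ v ∈ S, ∑ j ∈ I v, ∑ w ∈ ab L v, wt w * lam (av w) e (bc L (F j)) x ≤
      ∑ j ∈ I v, lc v y j + q * Cv v := by
    intro v _
    have h4 := hCv v L hL.le x hx hGx hFx
    have h6 : ∀ j, ∑ w ∈ ab L v, wt w * lam (av w) e (bc L (F j)) x =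
        e * ∑ w ∈ ab L v, wt w * Real.log (nrm (av w) x) -
          wt v * Real.log (av v (y j)) := by
      intro j
      have h7 : wt v * Real.log (av v (y j)) =
          ∑ w ∈ ab L v, wt w * Real.log (av w (aeval x (F j))) := (h5 K L v _ (hFx j)).symm
      rw [Finset.mul_sum, h7, ← Finset.sum_sub_distrib]
      refine Finset.sum_congr rfl fun w _ => ?_
      have h8 : eval x (bc L (F j)) = aeval x (F j) := eval_bc _ _
      rw [lam_eq (av w) e _ hx (by rw [h8]; exact hFx j), h8]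
      ring
    have h9 : ∑ j ∈ I v, ∑ w ∈ ab L v, wt w * lam (av w) e (bc L (F j)) x ≤
        ∑ j ∈ I v, (lc v y j + Cv v) := by
      refine Finset.sum_le_sum fun j _ => ?_
      rw [h6]
      unfold lc
      rw [mul_sub]
      linarith
    refine h9.trans ?_
    rw [Finset.sum_add_distrib, Finset.sum_const, nsmul_eq_mul]
    have h10 : ((I v).card : ℝ) ≤ q := by
      have := Finset.card_le_univ (I v)
      rw [Fintype.card_fin] at this
      exact_mod_cast this
    have h11 := mul_le_mul_of_nonneg_right h10 (hCv0 v)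
    linarith
  refine (Finset.sum_le_sum h3).trans ?_
  rw [Finset.sum_add_distrib, ← Finset.mul_sum]
  have h10 : ((N * δ : ℕ) + (min ν (N * δ) : ℕ) + ε) * logHeight y ≤
      ((N * δ : ℕ) + (min ν (N * δ) : ℕ) + ε) * (e * logHeight x + C') :=
    mul_le_mul_of_nonneg_left h2 (by positivity)
  linarith

/-- **The inequality for the points of degree at most `r`.** -/
theorem red_r {n m q N e r : ℕ} (ν : ℕ) (he : 1 ≤ e)
    (G : Fin m → MvPolynomial (Fin n) K) (g : Fin m → ℕ) (hG : ∀ k, (G k).IsHomogeneous (g k))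
    (F : Fin q → MvPolynomial (Fin n) K) (hF : ∀ i, (F i).IsHomogeneous e)
    (hgp : ∀ J : Fin (N + 1) ↪ Fin q, ∀ (E : Type) [Field E] [Algebra K E] (x : Fin n → E),
      (∀ k, aeval x (G k) = 0) → (∀ k, aeval x (F (J k)) = 0) → x = 0) {ε : ℝ} (hε : 0 < ε)
    (S : Finset (Pl K)) :
    ∃ C : ℝ, 0 ≤ C ∧ ∀ (L : Type) [Field L] [NumberField L] [Algebra K L], finrank K L ≤ r →
      ∀ x : Fin n → L, x ≠ 0 → (∀ k, aeval x (G k) = 0) → (∀ j, aeval x (F j) ≠ 0) →
      ∀ I : Pl K → Finset (Fin q), (∀ v ∈ S, (I v).card ≤ ν) →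
      ∑ v ∈ S, ∑ j ∈ I v, ∑ w ∈ ab L v, wt w * lam (av w) e (bc L (F j)) x ≤
        ((N * finrank K L : ℕ) + (min ν (N * finrank K L) : ℕ) + ε) * (e * logHeight x) + C := by
  classical
  have h1 : ∀ δ : ℕ, ∃ C : ℝ, 0 ≤ C ∧ (1 ≤ δ → ∀ (L : Type) [Field L] [NumberField L]
      [Algebra K L], finrank K L = δ →
      ∀ x : Fin n → L, x ≠ 0 → (∀ k, aeval x (G k) = 0) → (∀ j, aeval x (F j) ≠ 0) →
      ∀ I : Pl K → Finset (Fin q), (∀ v ∈ S, (I v).card ≤ ν) →
      ∑ v ∈ S, ∑ j ∈ I v, ∑ w ∈ ab L v, wt w * lam (av w) e (bc L (F j)) x ≤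
        ((N * δ : ℕ) + (min ν (N * δ) : ℕ) + ε) * (e * logHeight x) + C) := by
    intro δ
    by_cases hδ : 1 ≤ δ
    · obtain ⟨C, hC0, hC⟩ := red_delta (δ := δ) ν hδ he G g hG F hF hgp hε S
      exact ⟨C, hC0, fun _ => hC⟩
    · exact ⟨0, le_rfl, fun h => absurd h hδ⟩
  choose C hC0 hC using h1
  refine ⟨∑ δ ∈ Finset.range (r + 1), C δ, Finset.sum_nonneg fun δ _ => hC0 δ,
    fun L _ _ _ hL x hx hGx hFx I hI => ?_⟩
  have hfin : FiniteDimensional K L := Module.Finite.of_restrictScalars_finite ℚ K L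
  have h2 := hC (finrank K L) finrank_pos L rfl x hx hGx hFx I hI
  have h3 : C (finrank K L) ≤ ∑ δ ∈ Finset.range (r + 1), C δ :=
    Finset.single_le_sum (f := C) (fun δ _ => hC0 δ) (Finset.mem_range.2 (by omega))
  linarith

end Pool.Agent.H430.Nm
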