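import Pool.Agent.H430.Ft.Shp
import Pool.Agent.H430.Nm.Gen

/-!
The optimality of the constant `N + m` for rational points if `m` divides `N`.
-/

set_option autoImplicit false

namespace Pool.Agent.H430.Nm

open Finset NumberField IsDedekindDomain Height Module
open Pool.Agent.W180.OP
open Pool.Agent.NH28 (Ov nn ab mem_ab sum_nn card_ab_le)
open Pool.Agent.H430.Ft (exists_places fv_coprime fv_nat_le height_nat)

variable (K : Type) [Field K] [NumberField K]

lemma ab_self (v : Pl K) : ab K v = {v} := by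
  have h2 : ∀ w ∈ ab K v, w = v := by
    intro w hw
    have h3 : (ab K v).card ≤ 1 := by
      have := card_ab_le K v
      rwa [Module.finrank_self] at this
    rw [Finset.card_le_one] at h3
    exact h3 w hw v (mem_ab.2 (Pool.Agent.H426.Two.ov_self v))
  ext w
  rw [Finset.mem_singleton]
  exact ⟨h2 w, fun h => by rw [h]; exact mem_ab.2 (Pool.Agent.H426.Two.ov_self v)⟩

/-- points whose coordinates are units outside a finite set of primes -/
theorem unit_points (k : ℕ) (hk : 1 ≤ k) : ∃ (S : Finset (Pl K)) (cl : Pl K → Fin (k + 1)),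
    ∀ c C : ℝ, c < k + 1 → ∃ x : Fin (k + 1) → K, (∀ j, x j ≠ 0) ∧
      c * logHeight x + C <
        ∑ v ∈ S, wt v * (Real.log (nrm (av v) x) - Real.log (av v (x (cl v)))) := by
  classical
  set s : ℕ := k + 1 with hs
  have hs2 : 2 ≤ s := by omega
  set pr : Fin s → ℕ := fun k => Nat.nth Nat.Prime k with hpr
  have hprime : ∀ k, (pr k).Prime := fun k => Nat.prime_nth_prime _
  have hprinj : Function.Injective pr := fun k k' h =>
    Fin.ext (Nat.nth_injective Nat.infinite_setOf_prime h)
  have hcop : ∀ k k', k ≠ k' → Nat.Coprime (pr k) (pr k') := fun k k' h =>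
    (Nat.coprime_primes (hprime k) (hprime k')).2 fun h' => h (hprinj h')
  choose T hT1 hT2 using fun k => exists_places K (pr k) (hprime k).ne_zero
  have hTd : ∀ k k', k ≠ k' → Disjoint (T k) (T k') := by
    intro k k' h
    rw [disjoint_left]
    intro v hv hv'
    exact hT1 k' v hv' (fv_coprime v _ _ (hcop k k' h) (hT1 k v hv))
  set Si : Fin s → Finset (Pl K) := fun k => (T k).map ⟨Sum.inr, Sum.inr_injective⟩ with hSi
  have hSid : ∀ k k', k ≠ k' → Disjoint (Si k) (Si k') := by
    intro k k' h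
    exact (disjoint_map _).2 (hTd k k' h)
  set S0 : Finset (Pl K) := univ.biUnion Si with hS0
  have hcl : ∀ v : Pl K, ∃ j : Fin s, ∀ k, v ∈ Si k → j = k := by
    intro v
    by_cases h : ∃ k, v ∈ Si k
    · obtain ⟨k, hk⟩ := h
      refine ⟨k, fun k' hk' => ?_⟩
      by_contra hne
      exact disjoint_left.1 (hSid k k' hne) hk hk'
    · push Not at h
      exact ⟨⟨0, by omega⟩, fun k hk => absurd hk (h k)⟩
  choose cl hcl using hcl
  refine ⟨S0, cl, fun c C hc => ?_⟩
  have hsum : ∀ g : Pl K → ℝ, ∑ v ∈ S0, g v = ∑ k, ∑ v ∈ T k, g (Sum.inr v) := by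
    intro g
    rw [hS0, sum_biUnion fun k _ k' _ h => hSid k k' h]
    refine sum_congr rfl fun k _ => ?_
    rw [hSi, sum_map]
    rfl
  have hoth : ∀ k : Fin s, ∃ k' : Fin s, k' ≠ k := by
    intro k
    by_cases h : k = ⟨0, by omega⟩
    · exact ⟨⟨1, by omega⟩, by rw [h]; intro h'; exact absurd (Fin.ext_iff.1 h') one_ne_zero⟩
    · exact ⟨⟨0, by omega⟩, fun h' => h h'.symm⟩
  choose o ho using hoth
  set d : ℝ := (finrank ℚ K : ℝ) with hd
  have hd1 : 1 ≤ d := by
    rw [hd]
    exact_mod_cast (finrank_pos : 0 < finrank ℚ K)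
  set El : ℝ := ∑ k, d * Real.log (pr k) with hEl
  have hc' : c < s := by
    rw [hs]
    push_cast
    exact hc
  have hs0 : (0 : ℝ) < s := by
    have : 0 < s := by omega
    exact_mod_cast this
  set cp : ℝ := max c 0 with hcp
  have hcpN : cp < s := max_lt hc' hs0
  obtain ⟨M, hM1, hM⟩ : ∃ M : ℕ, 1 ≤ M ∧ |C + El| / (s - cp) < Real.log M := by
    obtain ⟨M, hM⟩ := exists_nat_gt (Real.exp (|C + El| / (s - cp)))
    have hMp : (0 : ℝ) < M := (Real.exp_pos _).trans hM
    refine ⟨M, by exact_mod_cast hMp, ?_⟩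
    rw [Real.lt_log_iff_exp_lt hMp]
    exact hM
  have hlM : 0 ≤ Real.log M := Real.log_nonneg (by exact_mod_cast hM1)
  have hdM : Real.log M ≤ d * Real.log M := le_mul_of_one_le_left hlM hd1
  have hb : C + El < (s - cp) * (d * Real.log M) := by
    have h1 := le_abs_self (C + El)
    have h2 : |C + El| / (s - cp) < d * Real.log M := lt_of_lt_of_le hM hdM
    rw [div_lt_iff₀ (by linarith)] at h2
    linarith
  set n : Fin s → ℕ := fun k => Nat.log (pr k) M with hn
  set t : Fin s → ℕ := fun k => pr k ^ n k with ht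
  have ht0 : ∀ k, t k ≠ 0 := fun k => pow_ne_zero _ (hprime k).ne_zero
  have htM : ∀ k, t k ≤ M := fun k => Nat.pow_log_le_self _ (by omega)
  have htl : ∀ k, Real.log M - Real.log (pr k) ≤ n k * Real.log (pr k) := by
    intro k
    have h1 : M < pr k ^ (n k + 1) := Nat.lt_pow_succ_log_self (hprime k).one_lt _
    have h2 : (M : ℝ) ≤ (pr k : ℝ) ^ (n k + 1) := by exact_mod_cast h1.le
    have h3 := Real.log_le_log (by exact_mod_cast hM1) h2
    rw [Real.log_pow] at h3
    push_cast at h3
    linarith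
  have hx0 : ∀ j, ((t j : ℕ) : K) ≠ 0 := fun j => by exact_mod_cast ht0 j
  refine ⟨fun j => (t j : K), hx0, ?_⟩
  have htne : (fun k => (t k : K)) ≠ 0 := fun h => hx0 ⟨0, by omega⟩ (congrFun h _)
  have hh := height_nat t htne M hM1 htM
  have hh0 := logHeight_nonneg (fun k => (t k : K))
  have h1 : c * logHeight (fun k => (t k : K)) ≤ cp * (d * Real.log M) :=
    (mul_le_mul_of_nonneg_right (le_max_left c 0) hh0).trans
      (mul_le_mul_of_nonneg_left hh (le_max_right c 0))
  rw [hsum]
  have h2 : ∀ k, ∀ v ∈ T k, -(n k * Real.log (fv v (pr k : K))) ≤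
      wt (Sum.inr v : Pl K) * (Real.log (nrm (av (Sum.inr v : Pl K)) (fun k => (t k : K))) -
        Real.log (av (Sum.inr v : Pl K) ((t (cl (Sum.inr v)) : ℕ) : K))) := by
    intro k v hv
    have h3 : cl (Sum.inr v) = k := hcl _ k (mem_map_of_mem _ hv)
    rw [h3]
    have h4 : fv v (t (o k) : K) = 1 := by
      simp only [ht]
      push_cast
      rw [map_pow, fv_coprime v _ _ (hcop k (o k) (ho k).symm) (hT1 k v hv), one_pow]
    have h5 : Real.log (fv v (t k : K)) = n k * Real.log (fv v (pr k : K)) := by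
      simp only [ht]
      push_cast
      rw [map_pow, Real.log_pow]
    have h6 : 0 ≤ Real.log (nrm (fv v) (fun k => (t k : K))) := by
      refine Real.log_nonneg ?_
      have := le_nrm (fv v) (fun k => (t k : K)) (o k)
      rw [h4] at this
      exact this
    show _ ≤ (1 : ℝ) * (Real.log (nrm (fv v) (fun k => (t k : K))) - Real.log (fv v ((t k : ℕ) : K)))
    rw [one_mul, h5]
    linarith
  have h3 : ∑ k, ∑ v ∈ T k, -(n k * Real.log (fv v (pr k : K))) ≤
      ∑ k, ∑ v ∈ T k, wt (Sum.inr v : Pl K) *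
        (Real.log (nrm (av (Sum.inr v : Pl K)) (fun k => (t k : K))) -
        Real.log (av (Sum.inr v : Pl K) ((t (cl (Sum.inr v)) : ℕ) : K))) :=
    sum_le_sum fun k _ => sum_le_sum fun v hv => h2 k v hv
  refine lt_of_lt_of_le ?_ h3
  have h4 : ∀ k, ∑ v ∈ T k, -(n k * Real.log (fv v (pr k : K))) = n k * (d * Real.log (pr k)) := by
    intro k
    rw [sum_neg_distrib, ← mul_sum, hT2]
    ring
  rw [sum_congr rfl fun k _ => h4 k]
  have h5 : s * (d * Real.log M) - El ≤ ∑ k, n k * (d * Real.log (pr k)) := by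
    have h6 : (s : ℝ) * (d * Real.log M) = ∑ _k : Fin s, d * Real.log M := by
      rw [sum_const, card_univ, Fintype.card_fin, nsmul_eq_mul]
    rw [hEl, h6, ← sum_sub_distrib]
    refine sum_le_sum fun k _ => ?_
    have h7 := mul_le_mul_of_nonneg_left (htl k) (by linarith : (0 : ℝ) ≤ d)
    rw [mul_sub] at h7
    linarith [h7, show d * (n k * Real.log (pr k)) = n k * (d * Real.log (pr k)) by ring]
  nlinarith

end Pool.Agent.H430.Nm
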